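import Mathlib

namespace Pool.Agent.Results.MP_8fbeef_co.Path

open SimpleGraph

variable {V : Type} [Fintype V] [DecidableEq V]

/-- every vertex outside `D` has a neighbour in `D` -/
def Dom (G : SimpleGraph V) (D : Finset V) : Prop := ∀ v, v ∉ D → ∃ u ∈ D, G.Adj v u

/-- domination number -/
noncomputable def gam (G : SimpleGraph V) : ℕ := sInf {n | ∃ D, Dom G D ∧ D.card = n}

/-- `k`-`(γ,r)`-critical graphs -/
def Crit (G : SimpleGraph V) (k r : ℕ) : Prop :=
  gam G = k ∧ ∀ u v, u ≠ v → ¬ G.Adj u v → G.edist u v ≤ r → gam (G ⊔ edge u v) < k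

theorem key {G : SimpleGraph V} (hc : G.Connected) {u v w : V} (h1 : G.Adj u w) (h2 : G.Adj v w)
    {D : Finset V} (hD : Dom (G ⊔ edge u v) D) (hu : u ∈ D) (h : D.card ≤ 2) :
    ∃ (a b : V) (p : G.Walk a b), p.IsPath ∧ Dom G p.support.toFinset := by
  obtain ⟨x, hx⟩ : ∃ x, ∀ y ∈ D, y = u ∨ y = x := by
    by_cases e : ∃ x ∈ D, x ≠ u
    · obtain ⟨x, x1, x2⟩ := e
      refine ⟨x, fun y hy => ?_⟩
      by_contra hh
      rw [not_or] at hh
      have : 2 < D.card := Finset.two_lt_card.2 ⟨u, hu, x, x1, y, hy, x2.symm,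
        fun q => hh.1 q.symm, fun q => hh.2 q.symm⟩
      omega
    · exact ⟨u, fun y hy => Or.inl (by by_contra q; exact e ⟨y, hy, q⟩)⟩
  obtain ⟨b, p, hp, m1, m2⟩ : ∃ (b : V) (p : G.Walk x b), p.IsPath ∧ u ∈ p.support ∧
      w ∈ p.support := by
    obtain ⟨p, hp⟩ := hc.exists_isPath x u
    by_cases e : w ∈ p.support
    · exact ⟨u, p, hp, p.end_mem_support, e⟩
    · exact ⟨w, p.concat h1, hp.concat e h1, by simp, by simp⟩
  refine ⟨x, b, p, hp, fun y hy => ?_⟩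
  rw [List.mem_toFinset] at hy
  have sub : ∀ z ∈ D, z ∈ p.support := fun z hz => by
    rcases hx z hz with rfl | rfl
    · exact m1
    · exact p.start_mem_support
  obtain ⟨z, z1, z2⟩ := hD y (fun q => hy (sub y q))
  rcases z2 with q | q
  · exact ⟨z, List.mem_toFinset.2 (sub z z1), q⟩
  · rw [edge_adj] at q
    rcases q.1 with ⟨rfl, -⟩ | ⟨rfl, -⟩
    · exact absurd m1 hy
    · exact ⟨w, List.mem_toFinset.2 m2, h2⟩

theorem result (V : Type) [Fintype V] [DecidableEq V] (G : SimpleGraph V) (hc : G.Connected)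
    (h : Crit G 3 2) : ∃ (a b : V) (p : G.Walk a b), p.IsPath ∧ Dom G p.support.toFinset := by
  classical
  have low : ∀ D, Dom G D → 3 ≤ D.card := fun D hD => h.1 ▸ Nat.sInf_le ⟨D, hD, rfl⟩
  obtain ⟨a⟩ := hc.nonempty
  obtain ⟨b, hb⟩ : ∃ b, ¬ (b = a ∨ G.Adj a b) := by
    by_contra hh
    have := low {a} (fun v hv => ⟨a, by simp, by
      by_contra q
      exact hh ⟨v, fun r => r.elim (fun s => hv (by simp [s])) (fun s => q s.symm)⟩⟩)
    simp at this
  obtain ⟨p⟩ := hc a b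
  obtain ⟨d, -, d1, d2⟩ := p.exists_boundary_dart {y | y = a ∨ G.Adj a y} (Or.inl rfl) hb
  simp only [Set.mem_ofPred_eq, not_or] at d1 d2
  have aw : G.Adj a d.fst := d1.resolve_left (fun e => d2.2 (e ▸ d.adj))
  have lt := h.2 a d.snd (fun e => d2.1 e.symm) d2.2
    (edist_le (Walk.cons aw (Walk.cons d.adj Walk.nil)))
  obtain ⟨D, hD, hc2⟩ := Nat.sInf_mem (s := {n | ∃ D, Dom (G ⊔ edge a d.snd) D ∧ D.card = n})
    ⟨_, Finset.univ, fun v hv => absurd (Finset.mem_univ v) hv, rfl⟩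
  have c2 : D.card ≤ 2 := by unfold gam at lt; omega
  by_cases e1 : a ∈ D
  · exact key hc aw d.adj.symm hD e1 c2
  by_cases e2 : d.snd ∈ D
  · rw [edge_comm] at hD
    exact key hc d.adj.symm aw hD e2 c2
  have := low D (fun y hy => by
    obtain ⟨z, z1, z2⟩ := hD y hy
    rcases z2 with q | q
    · exact ⟨z, z1, q⟩
    · rw [edge_adj] at q
      rcases q.1 with ⟨-, rfl⟩ | ⟨-, rfl⟩
      · exact absurd z1 e2
      · exact absurd z1 e1)
  omega

end Pool.Agent.Results.MP_8fbeef_co.Path
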